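import Pool.Agent.Lib.MP_d8bd92_nt.Fr.E
import Pool.Agent.Lib.MP_d8bd92_nt.Fh.H
import Pool.Agent.Lib.MP_d8bd92_nt.P4.FullLow

set_option autoImplicit false

/-!
The distribution of the Szpiro ratio `log |Δ| / log N` of the semistable elliptic curves over `ℚ` with
full rational 2-torsion (Frey curves), ordered by conductor.

A `WeierstrassCurve ℤ` with nonzero discriminant `Δ` coprime to `c₄` is exactly a (global minimal)
integral model of a semistable elliptic curve over `ℚ`; its conductor `N` is the product of the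
primes dividing `Δ`, and the pair `(c₄, c₆)` determines the curve up to isomorphism over `ℚ` (and
is determined by it).  So the sets below count isomorphism classes of curves.
-/

namespace Pool.Agent.Results.MP_d8bd92_nt.FreyCurves

open Pool.Agent.Lib.MP_d8bd92_nt Pool.Agent.Lib.Szpiro WeierstrassCurve Filter Topology

/-- two different rational points of order two, that is, all the points of order two are rational -/
def FullTwo (W : WeierstrassCurve ℤ) : Prop :=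
  ∃ S T : (W.baseChange ℚ).toAffine.Point, addOrderOf S = 2 ∧ addOrderOf T = 2 ∧ S ≠ T

/-- the product of the primes dividing `Δ`, the conductor of a semistable curve -/
def cond (W : WeierstrassCurve ℤ) : ℕ := ∏ p ∈ W.Δ.natAbs.primeFactors, p

/-- the absolute value of the discriminant -/
def disc (W : WeierstrassCurve ℤ) : ℕ := W.Δ.natAbs

/-- the height `max |c₄|³ |c₆|²` -/
def ht (W : WeierstrassCurve ℤ) : ℕ := max (W.c₄.natAbs ^ 3) (W.c₆.natAbs ^ 2)

/-- The semistable curves `W` (up to isomorphism) with full rational 2-torsion, conductor `N ≤ Y`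
and `N ^ s ≤ F W ≤ Y ^ k`. -/
def Curves (F : WeierstrassCurve ℤ → ℕ) (k s Y : ℝ) : Set (ℤ × ℤ) :=
  {c | ∃ W : WeierstrassCurve ℤ, W.c₄ = c.1 ∧ W.c₆ = c.2 ∧ W.Δ ≠ 0 ∧ IsCoprime W.c₄ W.Δ ∧
    FullTwo W ∧ (cond W : ℝ) ≤ Y ∧ (cond W : ℝ) ^ s ≤ (F W : ℝ) ∧ (F W : ℝ) ≤ Y ^ k}

theorem disc_le (F : WeierstrassCurve ℤ → ℕ) (hF : F = disc ∨ F = ht) (W : WeierstrassCurve ℤ) :
    (disc W : ℝ) ≤ (F W : ℝ) ∧ (F W : ℝ) ≤ (ht W : ℝ) := by
  have h : (disc W : ℝ) ≤ (ht W : ℝ) := by exact_mod_cast Fr.disc_le_ht W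
  rcases hF with rfl | rfl
  · exact ⟨le_rfl, h⟩
  · exact ⟨h, le_rfl⟩

theorem finite (F : WeierstrassCurve ℤ → ℕ) (hF : F = disc ∨ F = ht) (k s Y : ℝ) :
    (Curves F k s Y).Finite := by
  refine (Fr.FD_finite Y k).subset ?_
  rintro x ⟨W, h1, h2, h3, h4, h5, h6, _, h8⟩
  exact ⟨W, h1, h2, h3, h4, h5, h6, (disc_le F hF W).1.trans h8⟩

/-- the curves are in the exceptional set -/
theorem sub_FX (F : WeierstrassCurve ℤ → ℕ) (hF : F = disc ∨ F = ht) (k s t Y : ℝ) (hts : t ≤ s) :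
    Curves F k s Y ⊆ Fr.FX Y t k := by
  rintro x ⟨W, h1, h2, h3, h4, h5, h6, h7, h8⟩
  have hN1 : (1 : ℝ) ≤ (cond W : ℝ) := by exact_mod_cast rd_pos W.Δ.natAbs
  refine ⟨W, h1, h2, h3, h4, h5, h6, ?_, (disc_le F hF W).1.trans h8⟩
  exact (Real.rpow_le_rpow_of_exponent_le hN1 hts).trans (h7.trans (disc_le F hF W).2)

/-- the conductor squared is at most the discriminant -/
theorem sq_le (W : WeierstrassCurve ℤ) (h3 : W.Δ ≠ 0) (h4 : IsCoprime W.c₄ W.Δ) (h5 : FullTwo W)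
    (s : ℝ) (hs : s ≤ 2) : (cond W : ℝ) ^ s ≤ (disc W : ℝ) := by
  obtain ⟨w, hw, hf, hD⟩ := Fr.param W h3 h4 h5
  have hn : W.Δ.natAbs = Fr.nn w ^ 2 := by rw [hD, Fr.natAbs_sq]
  have hr : cond W = rd (Fr.nn w) := by
    have : cond W = rd W.Δ.natAbs := rfl
    rw [this, hn, Fr.rd_sq]
  have hN1 : (1 : ℝ) ≤ (cond W : ℝ) := by exact_mod_cast rd_pos W.Δ.natAbs
  have hpos : 1 ≤ Fr.nn w := Fr.nn_pos w (Fr.good_ne w hw).1 hw.2.1 (Fr.good_ne w hw).2
  have h6 : cond W ≤ Fr.nn w := by rw [hr]; exact rd_le (by omega)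
  calc (cond W : ℝ) ^ s ≤ (cond W : ℝ) ^ (2 : ℝ) := Real.rpow_le_rpow_of_exponent_le hN1 hs
    _ = ((cond W ^ 2 : ℕ) : ℝ) := by
        push_cast
        rw [← Real.rpow_natCast]
        norm_num
    _ ≤ ((Fr.nn w ^ 2 : ℕ) : ℝ) := by exact_mod_cast Nat.pow_le_pow_left h6 2
    _ = (disc W : ℝ) := by rw [disc, hn]

/-- the upper bound, uniform in `s` -/
theorem upper (k e : ℝ) (he : 0 < e) : ∃ C : ℝ, 0 < C ∧ ∀ s Y : ℝ, 2 ≤ s → s ≤ 5 / 2 → 1 ≤ Y →
    ∃ t : ℝ, t ≤ s ∧ (Fr.FX Y t k).Finite ∧ ((Fr.FX Y t k).ncard : ℝ) ≤ C * Y ^ (1 - s / 6 + e) := by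
  obtain ⟨n, hn⟩ := exists_nat_gt (1 / (3 * e))
  have h3e : 0 < 3 * e := by positivity
  have hn0 : (0 : ℝ) < n := lt_trans (by positivity) hn
  have hstep : 1 / (n : ℝ) ≤ 3 * e := by
    rw [div_lt_iff₀ h3e] at hn
    rw [div_le_iff₀ hn0]
    linarith
  -- the grid
  have hgrid : ∀ j : ℕ, ∃ C : ℝ, 1 ≤ C ∧ (2 + (j : ℝ) / n ≤ 5 / 2 → ∀ Y : ℝ, 1 ≤ Y →
      (Fr.FX Y (2 + (j : ℝ) / n) k).Finite ∧
      ((Fr.FX Y (2 + (j : ℝ) / n) k).ncard : ℝ) ≤ C * Y ^ (1 - (2 + (j : ℝ) / n) / 6 + e / 2)) := by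
    intro j
    by_cases hj : 2 + (j : ℝ) / n ≤ 5 / 2
    · obtain ⟨C, hC, h⟩ := Fh.upH (2 + (j : ℝ) / n) (e / 2) k
        (by have : 0 ≤ (j : ℝ) / n := by positivity
            linarith) hj (by positivity)
      exact ⟨C, hC, fun _ => h⟩
    · exact ⟨1, le_rfl, fun h => absurd h hj⟩
  choose C hC hb using hgrid
  refine ⟨∑ j ∈ Finset.range (n + 1), C j, ?_, fun s Y hs hs' hY => ?_⟩
  · apply Finset.sum_pos
    · intro j _
      linarith [hC j]
    · exact ⟨0, by simp⟩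
  · have hY0 : 0 < Y := by linarith
    obtain ⟨j, hj⟩ : ∃ j : ℕ, j = ⌊(s - 2) * n⌋₊ := ⟨_, rfl⟩
    have hsn : 0 ≤ (s - 2) * n := mul_nonneg (by linarith) hn0.le
    have hj1 : (j : ℝ) ≤ (s - 2) * n := by rw [hj]; exact Nat.floor_le hsn
    have hj2 : (s - 2) * n < (j : ℝ) + 1 := by rw [hj]; exact Nat.lt_floor_add_one _
    have hjn : (j : ℝ) / n ≤ s - 2 := by
      rw [div_le_iff₀ hn0]; exact hj1
    have hjn2 : s - 2 ≤ (j : ℝ) / n + 1 / n := by
      rw [← add_div, le_div_iff₀ hn0]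
      exact hj2.le
    obtain ⟨h1, h2⟩ := hb j (by linarith) Y hY
    refine ⟨2 + (j : ℝ) / n, by linarith, h1, h2.trans ?_⟩
    have hjmem : j ∈ Finset.range (n + 1) := by
      rw [Finset.mem_range]
      have : (j : ℝ) < (n : ℝ) + 1 := by
        have : (s - 2) * n ≤ 1 * n := mul_le_mul_of_nonneg_right (by linarith) hn0.le
        linarith
      exact_mod_cast this
    have hsum : C j ≤ ∑ i ∈ Finset.range (n + 1), C i :=
      Finset.single_le_sum (f := C) (fun i _ => by linarith [hC i]) hjmem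
    have hexp : Y ^ (1 - (2 + (j : ℝ) / n) / 6 + e / 2) ≤ Y ^ (1 - s / 6 + e) := by
      apply Real.rpow_le_rpow_of_exponent_le hY
      linarith
    calc C j * Y ^ (1 - (2 + (j : ℝ) / n) / 6 + e / 2) ≤ C j * Y ^ (1 - s / 6 + e) :=
          mul_le_mul_of_nonneg_left hexp (by linarith [hC j])
      _ ≤ (∑ i ∈ Finset.range (n + 1), C i) * Y ^ (1 - s / 6 + e) :=
          mul_le_mul_of_nonneg_right hsum (by positivity)

/-- Let `F` be `|Δ|` or the height, and `k > 2`. The number of the semistable curves with full rational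
2-torsion, conductor `N ≤ Y` and `N ^ s ≤ F ≤ Y ^ k` is asymptotic to `c Y ^ (2/3)` for every `s ≤ 2`,
with one constant `c` for both `F` and all `k`; for `2 ≤ s < 6`, `s < k` it is at least
`b Y ^ (1 - s/6)`, and for all `s ≥ 2` at most `C Y ^ (max (1 - s/6) (7/12) + e)`. -/
theorem result : ∃ c : ℝ, 0 < c ∧ ∀ F : WeierstrassCurve ℤ → ℕ, (F = disc ∨ F = ht) →
    ∀ k : ℝ, 2 < k →
    (∀ s Y : ℝ, (Curves F k s Y).Finite) ∧
    (∀ s : ℝ, s ≤ 2 → Tendsto (fun Y : ℝ => ((Curves F k s Y).ncard : ℝ) / Y ^ (2 / 3 : ℝ))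
      atTop (𝓝 c)) ∧
    (∀ s : ℝ, 2 ≤ s → s < 6 → s < k → ∃ b : ℝ, 0 < b ∧ ∀ᶠ Y : ℝ in atTop,
      b * Y ^ (1 - s / 6) ≤ ((Curves F k s Y).ncard : ℝ)) ∧
    (∀ e : ℝ, 0 < e → ∃ C : ℝ, ∀ s Y : ℝ, 2 ≤ s → 1 ≤ Y →
      ((Curves F k s Y).ncard : ℝ) ≤ C * Y ^ (max (1 - s / 6) (7 / 12) + e)) := by
  obtain ⟨c, hc, hlim⟩ := Fr.full_asymp
  refine ⟨c, hc, fun F hF k hk => ⟨finite F hF k, ?_, ?_, ?_⟩⟩
  · intro s hs
    have hset : ∀ Y : ℝ, (F = disc → Curves F k s Y = Fr.FD Y k) ∧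
        (F = ht → Curves F k s Y = Fr.FT Y k) := by
      intro Y
      constructor
      · rintro rfl
        ext x
        constructor
        · rintro ⟨W, h1, h2, h3, h4, h5, h6, _, h8⟩
          exact ⟨W, h1, h2, h3, h4, h5, h6, h8⟩
        · rintro ⟨W, h1, h2, h3, h4, h5, h6, h8⟩
          exact ⟨W, h1, h2, h3, h4, h5, h6, sq_le W h3 h4 h5 s hs, h8⟩
      · rintro rfl
        ext x
        constructor
        · rintro ⟨W, h1, h2, h3, h4, h5, h6, _, h8⟩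
          exact ⟨W, h1, h2, h3, h4, h5, h6, h8⟩
        · rintro ⟨W, h1, h2, h3, h4, h5, h6, h8⟩
          exact ⟨W, h1, h2, h3, h4, h5, h6,
            (sq_le W h3 h4 h5 s hs).trans (disc_le ht (Or.inr rfl) W).1, h8⟩
    rcases hF with hF | hF
    · have h := (hlim k hk).1
      refine h.congr fun Y => ?_
      rw [(hset Y).1 hF]
    · have h := (hlim k hk).2
      refine h.congr fun Y => ?_
      rw [(hset Y).2 hF]
  · intro s h2 h6 hsk
    obtain ⟨b, Y0, hb, hY0, hlow⟩ := P4.full_lower s h2 h6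
    refine ⟨b, hb, ?_⟩
    have hev : ∀ᶠ Y : ℝ in atTop, (40000 : ℝ) ≤ Y ^ (k - s) :=
      (tendsto_rpow_atTop (by linarith)).eventually_ge_atTop 40000
    filter_upwards [eventually_ge_atTop Y0, hev] with Y hY hYk
    have hY1 : 1 ≤ Y := hY0.trans hY
    have hYp : 0 < Y := by linarith
    obtain ⟨S, hS, hcard⟩ := hlow Y hY
    refine hcard.trans ?_
    have hk2 : 40000 * Y ^ s ≤ Y ^ k := by
      have : Y ^ k = Y ^ (k - s) * Y ^ s := by rw [← Real.rpow_add hYp]; congr 1; ring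
      rw [this]
      exact mul_le_mul_of_nonneg_right hYk (by positivity)
    have hsub : (S : Set (ℤ × ℤ)) ⊆ Curves F k s Y := by
      intro x hx
      obtain ⟨W, g4, g6, hΔ, hss, hP, hN, hs, _, hH⟩ := hS x hx
      refine ⟨W, g4, g6, hΔ, hss, hP, hN, ?_, ?_⟩
      · exact le_trans hs (disc_le F hF W).1
      · exact (disc_le F hF W).2.trans (le_trans hH hk2)
    have h1 := Set.ncard_le_ncard hsub (finite F hF k s Y)
    rw [Set.ncard_coe_finset] at h1
    exact_mod_cast h1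
  · intro e he
    obtain ⟨C, hC, h⟩ := upper k e he
    refine ⟨C, fun s Y h2 hY => ?_⟩
    rcases le_total s (5 / 2) with hs | hs
    · obtain ⟨t, hts, hfin, hcard⟩ := h s Y h2 hs hY
      refine le_trans ?_ (hcard.trans ?_)
      · exact_mod_cast Set.ncard_le_ncard (sub_FX F hF k s t Y hts) hfin
      · apply mul_le_mul_of_nonneg_left _ hC.le
        apply Real.rpow_le_rpow_of_exponent_le hY
        linarith [le_max_left (1 - s / 6) (7 / 12 : ℝ)]
    · obtain ⟨t, hts, hfin, hcard⟩ := h (5 / 2) Y (by norm_num) le_rfl hY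
      refine le_trans ?_ (hcard.trans ?_)
      · exact_mod_cast Set.ncard_le_ncard (sub_FX F hF k s t Y (hts.trans hs)) hfin
      · apply mul_le_mul_of_nonneg_left _ hC.le
        apply Real.rpow_le_rpow_of_exponent_le hY
        linarith [le_max_right (1 - s / 6) (7 / 12 : ℝ)]

end Pool.Agent.Results.MP_d8bd92_nt.FreyCurves
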