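import Pool.Agent.Lib.MP_d8bd92_nt.ToF
import Pool.Agent.Lib.MP_d8bd92_nt.Hp.CurvesD
import Pool.Agent.Lib.MP_d8bd92_nt.Hp.CurvesM
import Pool.Agent.Lib.MP_d8bd92_nt.Hp.MainTrue
import Pool.Agent.Lib.MP_d8bd92_nt.T3.Main
import Pool.Agent.Lib.MP_d8bd92_nt.BgI
import Pool.Agent.Lib.MP_d8bd92_nt.Iso.Sub2
import Pool.Agent.Lib.MP_d8bd92_nt.Iso.Sub3
import Pool.Agent.Lib.MP_d8bd92_nt.Iso.Cnt7
import Pool.Agent.Lib.MP_d8bd92_nt.P4.Law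
import Pool.Agent.Lib.MP_d8bd92_nt.P4.ThreeSub
import Pool.Agent.Lib.MP_d8bd92_nt.As.E

set_option autoImplicit false

/-!
The distribution of the Szpiro ratio `log |Δ| / log N` of the semistable elliptic curves over `ℚ`
with a rational isogeny of degree 2, 3, 5 or 7 or with nontrivial rational torsion, ordered by
conductor. (By Mazur's theorem, which is not used, these are all the semistable curves with a
nontrivial rational isogeny.)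

A `WeierstrassCurve ℤ` with nonzero discriminant `Δ` coprime to `c₄` is exactly a (global minimal)
integral model of a semistable elliptic curve over `ℚ`; its conductor `N` is the product of the
primes dividing `Δ`, and the pair `(c₄, c₆)` determines the curve up to isomorphism over `ℚ` (and
is determined by it).  So the sets below count isomorphism classes of curves.
-/

namespace Pool.Agent.Results.MP_d8bd92_nt.RationalIsogeny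

open Pool.Agent.Lib.MP_d8bd92_nt WeierstrassCurve Filter Topology

open scoped Classical in
/-- `W` has a rational isogeny of the prime degree `p`: a point `P` of order `p` of `W(ℚ̄)` which
generates a subgroup (the kernel of the isogeny) that is stable under the Galois group of `ℚ` -/
def HasIsogeny (p : ℕ) (W : WeierstrassCurve ℤ) : Prop :=
  ∃ P : (W.baseChange (AlgebraicClosure ℚ)).toAffine.Point, addOrderOf P = p ∧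
    ∀ σ : AlgebraicClosure ℚ ≃ₐ[ℚ] AlgebraicClosure ℚ, ∃ k : ℕ,
      Affine.Point.map (W' := W) (σ : AlgebraicClosure ℚ →ₐ[ℚ] AlgebraicClosure ℚ) P = k • P

/-- `W` has a rational isogeny of degree 2, 3, 5 or 7, or a rational torsion point `P ≠ 0` -/
def Reducible (W : WeierstrassCurve ℤ) : Prop :=
  (HasIsogeny 2 W ∨ HasIsogeny 3 W ∨ HasIsogeny 5 W ∨ HasIsogeny 7 W) ∨
    ∃ P : (W.baseChange ℚ).toAffine.Point, P ≠ 0 ∧ IsOfFinAddOrder P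

/-- the product of the primes dividing `Δ`, the conductor of a semistable curve -/
def cond (W : WeierstrassCurve ℤ) : ℕ := ∏ p ∈ W.Δ.natAbs.primeFactors, p

/-- the height `max |c₄|³ |c₆|²` -/
def ht (W : WeierstrassCurve ℤ) : ℕ := max (W.c₄.natAbs ^ 3) (W.c₆.natAbs ^ 2)

/-- The semistable curves `W` (up to isomorphism) with `Reducible W`, with conductor `N ≤ Y`
and with the property `Q N |Δ| H`, where `H` is the height. -/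
def CurvesQ (Y : ℝ) (Q : ℝ → ℝ → ℝ → Prop) : Set (ℤ × ℤ) :=
  {c | ∃ W : WeierstrassCurve ℤ, W.c₄ = c.1 ∧ W.c₆ = c.2 ∧ W.Δ ≠ 0 ∧ IsCoprime W.c₄ W.Δ ∧
    Reducible W ∧ (cond W : ℝ) ≤ Y ∧ Q (cond W) (W.Δ.natAbs) (ht W)}

/-- a torsion point `P ≠ 0` has a multiple of prime order -/
theorem exists_prime_order {G : Type*} [AddMonoid G] (P : G) (h0 : P ≠ 0)
    (h : IsOfFinAddOrder P) : ∃ (Q : G) (l : ℕ), l.Prime ∧ addOrderOf Q = l := by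
  have h1 : addOrderOf P ≠ 1 := by
    rw [Ne, AddMonoid.addOrderOf_eq_one_iff]
    exact h0
  have h2 : 0 < addOrderOf P := h.addOrderOf_pos
  obtain ⟨l, hl, hd⟩ := Nat.exists_prime_and_dvd h1
  obtain ⟨m, hm⟩ := hd
  have hm0 : m ≠ 0 := by
    rintro rfl
    omega
  refine ⟨m • P, l, hl, ?_⟩
  rw [addOrderOf_nsmul_of_dvd hm0 ⟨l, by rw [hm]; ring⟩, hm]
  exact Nat.mul_div_cancel _ (Nat.pos_of_ne_zero hm0)

/-- a rational point of order `p` generates a Galois stable subgroup -/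
theorem ratSub_of_point (p : ℕ) (W : WeierstrassCurve ℤ)
    (h : ∃ P : (W.baseChange ℚ).toAffine.Point, addOrderOf P = p) : RatSub p W := by
  classical
  obtain ⟨Q, hQ⟩ := h
  exact Iso.sub_of_point W Q hQ

/-- the five cases -/
theorem red_cases (W : WeierstrassCurve ℤ) (h : Reducible W) :
    (∃ P : (W.baseChange ℚ).toAffine.Point, addOrderOf P = 2) ∨ RatSub 3 W ∨ RatSub 5 W ∨ RatSub 7 W ∨
    (∃ P : (W.baseChange ℚ).toAffine.Point, ∃ l : ℕ, l.Prime ∧ 11 ≤ l ∧ addOrderOf P = l) := by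
  rcases h with (h | h | h | h) | ⟨P, h0, hP⟩
  · obtain ⟨P, hP, hσ⟩ := h
    have := Iso.isGalois_Qbar
    classical
    exact Or.inl (Iso.two_sub (AlgebraicClosure ℚ) W P hP hσ)
  · exact Or.inr (Or.inl h)
  · exact Or.inr (Or.inr (Or.inl h))
  · exact Or.inr (Or.inr (Or.inr (Or.inl h)))
  · obtain ⟨Q, l, hl, hQ⟩ := exists_prime_order P h0 hP
    by_cases h11 : 11 ≤ l
    · exact Or.inr (Or.inr (Or.inr (Or.inr ⟨Q, l, hl, h11, hQ⟩)))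
    · have hlt : l < 11 := by omega
      interval_cases l
      · exact absurd hl (by norm_num)
      · exact absurd hl (by norm_num)
      · exact Or.inl ⟨Q, hQ⟩
      · exact Or.inr (Or.inl (ratSub_of_point 3 W ⟨Q, hQ⟩))
      · exact absurd hl (by norm_num)
      · exact Or.inr (Or.inr (Or.inl (ratSub_of_point 5 W ⟨Q, hQ⟩)))
      · exact absurd hl (by norm_num)
      · exact Or.inr (Or.inr (Or.inr (Or.inl (ratSub_of_point 7 W ⟨Q, hQ⟩))))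
      · exact absurd hl (by norm_num)
      · exact absurd hl (by norm_num)
      · exact absurd hl (by norm_num)

/-- a point of order two gives `Reducible` -/
theorem red_of_two (W : WeierstrassCurve ℤ)
    (h : ∃ P : (W.baseChange ℚ).toAffine.Point, addOrderOf P = 2) : Reducible W := by
  obtain ⟨P, hP⟩ := h
  refine Or.inr ⟨P, ?_, ?_⟩
  · rintro rfl
    rw [addOrderOf_zero] at hP
    norm_num at hP
  · rw [← addOrderOf_pos_iff, hP]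
    norm_num

theorem one_le_cond (W : WeierstrassCurve ℤ) : (1 : ℝ) ≤ (cond W : ℝ) := P4.one_le_rd _

theorem disc_le_ht (W : WeierstrassCurve ℤ) : ((W.Δ.natAbs : ℕ) : ℝ) ≤ (ht W : ℝ) := by
  have g1 : (1728 : ℤ) * W.Δ = W.c₄ ^ 3 - W.c₆ ^ 2 := W.c_relation
  have g2 : 1728 * W.Δ.natAbs ≤ W.c₄.natAbs ^ 3 + W.c₆.natAbs ^ 2 := by
    have g3 := Int.natAbs_sub_le (W.c₄ ^ 3) (W.c₆ ^ 2)
    rw [← g1, Int.natAbs_mul, Int.natAbs_pow, Int.natAbs_pow] at g3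
    exact g3
  have g4 := le_max_left (W.c₄.natAbs ^ 3) (W.c₆.natAbs ^ 2)
  have g5 := le_max_right (W.c₄.natAbs ^ 3) (W.c₆.natAbs ^ 2)
  have g6 : W.Δ.natAbs ≤ ht W := by unfold ht; omega
  exact_mod_cast g6

/-- the curves without a point of order two, `|Δ| ≤ Y ^ κ` -/
def rest (Y κ : ℝ) : Set (ℤ × ℤ) :=
  predSet (RatSub 3) Y κ ∪ (predSet (RatSub 5) Y κ ∪ (predSet (RatSub 7) Y κ ∪ bigSet Y κ))

theorem rest_few (κ : ℝ) (hκ : 1 ≤ κ) : ∃ C δ : ℝ, 0 < C ∧ 0 < δ ∧ ∀ Y : ℝ, 1 ≤ Y →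
    (rest Y κ).Finite ∧ ((rest Y κ).ncard : ℝ) ≤ C * Y ^ (3 / 4 - δ) := by
  have hκ0 : 0 < κ := by linarith
  obtain ⟨C5, hC5, h5⟩ := subSet_five κ (1 / 24) hκ0 (by norm_num)
  obtain ⟨C7, hC7, h7⟩ := subSet_seven κ (1 / 24) hκ0 (by norm_num)
  obtain ⟨CB, hCB, hB⟩ := bigSet_few κ (1 / 24) hκ0 (by norm_num)
  obtain ⟨C3, δ3, hC3, hδ3, h3⟩ := T3.subSet_three_few κ (T3.few3_all κ hκ)
  refine ⟨C3 + (C5 + (C7 + CB)), min δ3 (1 / 24), by positivity, lt_min hδ3 (by norm_num),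
    fun Y hY1 => ?_⟩
  obtain ⟨d, hd⟩ : ∃ d : ℝ, d = min δ3 (1 / 24) := ⟨_, rfl⟩
  rw [← hd]
  have hd3 : d ≤ δ3 := by rw [hd]; exact min_le_left _ _
  have hd24 : d ≤ 1 / 24 := by rw [hd]; exact min_le_right _ _
  obtain ⟨c1, c2⟩ := h5 Y hY1
  obtain ⟨d1, d2⟩ := h7 Y hY1
  obtain ⟨g1, g2⟩ := h3 Y hY1
  obtain ⟨m1, m2⟩ := hB Y hY1
  refine ⟨g1.union (c1.union (d1.union m1)), ?_⟩
  have k3 := Set.ncard_union_le (predSet (RatSub 5) Y κ) (predSet (RatSub 7) Y κ ∪ bigSet Y κ)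
  have k6 := Set.ncard_union_le (predSet (RatSub 3) Y κ)
    (predSet (RatSub 5) Y κ ∪ (predSet (RatSub 7) Y κ ∪ bigSet Y κ))
  have k7 := Set.ncard_union_le (predSet (RatSub 7) Y κ) (bigSet Y κ)
  have k5 : (rest Y κ).ncard ≤ (predSet (RatSub 3) Y κ).ncard + ((predSet (RatSub 5) Y κ).ncard +
      ((predSet (RatSub 7) Y κ).ncard + (bigSet Y κ).ncard)) := by
    unfold rest
    omega
  have k8 : ((rest Y κ).ncard : ℝ) ≤ ((predSet (RatSub 3) Y κ).ncard : ℝ) +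
      (((predSet (RatSub 5) Y κ).ncard : ℝ) + (((predSet (RatSub 7) Y κ).ncard : ℝ) +
      ((bigSet Y κ).ncard : ℝ))) := by exact_mod_cast k5
  have e2 : Y ^ (2 / 3 + 1 / 24 : ℝ) ≤ Y ^ (3 / 4 - d) :=
    Real.rpow_le_rpow_of_exponent_le hY1 (by linarith)
  have e4 : Y ^ (3 / 4 - δ3) ≤ Y ^ (3 / 4 - d) :=
    Real.rpow_le_rpow_of_exponent_le hY1 (by linarith)
  calc ((rest Y κ).ncard : ℝ) ≤ C3 * Y ^ (3 / 4 - δ3) +
        (C5 * Y ^ (2 / 3 + 1 / 24 : ℝ) + (C7 * Y ^ (2 / 3 + 1 / 24 : ℝ) +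
          CB * Y ^ (2 / 3 + 1 / 24 : ℝ))) := by linarith
    _ ≤ C3 * Y ^ (3 / 4 - d) +
        (C5 * Y ^ (3 / 4 - d) + (C7 * Y ^ (3 / 4 - d) + CB * Y ^ (3 / 4 - d))) := by
        gcongr
    _ = (C3 + (C5 + (C7 + CB))) * Y ^ (3 / 4 - d) := by ring

/-- the curves without a point of order two of height `≤ Y²` -/
def restHt (Y : ℝ) : Set (ℤ × ℤ) :=
  P4.threeSubHt (Y ^ (2 : ℝ)) ∪
    (predSet (RatSub 5) Y 2 ∪ (predSet (RatSub 7) Y 2 ∪ bigSet Y 2))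

theorem restHt_few (ε : ℝ) (hε : 0 < ε) : ∃ C : ℝ, 0 < C ∧ ∀ Y : ℝ, 1 ≤ Y →
    (restHt Y).Finite ∧ ((restHt Y).ncard : ℝ) ≤ C * Y ^ (2 / 3 + ε) := by
  obtain ⟨C5, hC5, h5⟩ := subSet_five 2 ε (by norm_num) hε
  obtain ⟨C7, hC7, h7⟩ := subSet_seven 2 ε (by norm_num) hε
  obtain ⟨CB, hCB, hB⟩ := bigSet_few 2 ε (by norm_num) hε
  obtain ⟨C3, hC3, h3⟩ := P4.threeSubHt_upper
  refine ⟨C3 + (C5 + (C7 + CB)), by positivity, fun Y hY1 => ?_⟩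
  have hY0 : 0 < Y := by linarith
  obtain ⟨c1, c2⟩ := h5 Y hY1
  obtain ⟨d1, d2⟩ := h7 Y hY1
  obtain ⟨g1, g2⟩ := h3 (Y ^ (2 : ℝ)) (Real.one_le_rpow hY1 (by norm_num))
  obtain ⟨m1, m2⟩ := hB Y hY1
  refine ⟨g1.union (c1.union (d1.union m1)), ?_⟩
  have k3 := Set.ncard_union_le (predSet (RatSub 5) Y 2) (predSet (RatSub 7) Y 2 ∪ bigSet Y 2)
  have k6 := Set.ncard_union_le (P4.threeSubHt (Y ^ (2 : ℝ)))
    (predSet (RatSub 5) Y 2 ∪ (predSet (RatSub 7) Y 2 ∪ bigSet Y 2))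
  have k7 := Set.ncard_union_le (predSet (RatSub 7) Y 2) (bigSet Y 2)
  have k5 : (restHt Y).ncard ≤ (P4.threeSubHt (Y ^ (2 : ℝ))).ncard + ((predSet (RatSub 5) Y 2).ncard +
      ((predSet (RatSub 7) Y 2).ncard + (bigSet Y 2).ncard)) := by
    unfold restHt
    omega
  have k8 : ((restHt Y).ncard : ℝ) ≤ ((P4.threeSubHt (Y ^ (2 : ℝ))).ncard : ℝ) +
      (((predSet (RatSub 5) Y 2).ncard : ℝ) + (((predSet (RatSub 7) Y 2).ncard : ℝ) +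
      ((bigSet Y 2).ncard : ℝ))) := by exact_mod_cast k5
  have e3 : (Y ^ (2 : ℝ)) ^ (1 / 3 : ℝ) ≤ Y ^ (2 / 3 + ε) := by
    rw [← Real.rpow_mul hY0.le]
    exact Real.rpow_le_rpow_of_exponent_le hY1 (by linarith)
  have e4 : C3 * (Y ^ (2 : ℝ)) ^ (1 / 3 : ℝ) ≤ C3 * Y ^ (2 / 3 + ε) :=
    mul_le_mul_of_nonneg_left e3 hC3.le
  calc ((restHt Y).ncard : ℝ) ≤ C3 * (Y ^ (2 : ℝ)) ^ (1 / 3 : ℝ) +
        (C5 * Y ^ (2 / 3 + ε) + (C7 * Y ^ (2 / 3 + ε) + CB * Y ^ (2 / 3 + ε))) := by linarith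
    _ ≤ (C3 + (C5 + (C7 + CB))) * Y ^ (2 / 3 + ε) := by linarith

/-- the curves with `|Δ| ≤ Y ^ κ` are covered -/
theorem cover (Y κ : ℝ) (Q : ℝ → ℝ → ℝ → Prop) (S : Set (ℤ × ℤ))
    (hQ : ∀ N D H : ℝ, Q N D H → D ≤ Y ^ κ)
    (hS : ∀ W : WeierstrassCurve ℤ, W.Δ ≠ 0 → IsCoprime W.c₄ W.Δ →
      (∃ P : (W.baseChange ℚ).toAffine.Point, addOrderOf P = 2) → (cond W : ℝ) ≤ Y →
      Q (cond W) (W.Δ.natAbs) (ht W) → (W.c₄, W.c₆) ∈ S) : CurvesQ Y Q ⊆ S ∪ rest Y κ := by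
  rintro c ⟨W, h4, h6, hΔ, hss, hP, hN, hq⟩
  have hD := hQ _ _ _ hq
  rcases red_cases W hP with hP | hP | hP | hP | hP
  · left
    have h := hS W hΔ hss hP hN hq
    rw [h4, h6] at h
    exact h
  · exact Or.inr (Or.inl ⟨W, h4, h6, hΔ, hss, hP, hN, hD⟩)
  · exact Or.inr (Or.inr (Or.inl ⟨W, h4, h6, hΔ, hss, hP, hN, hD⟩))
  · exact Or.inr (Or.inr (Or.inr (Or.inl ⟨W, h4, h6, hΔ, hss, hP, hN, hD⟩)))
  · exact Or.inr (Or.inr (Or.inr (Or.inr ⟨W, h4, h6, hΔ, hss, hP, hN, hD⟩)))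

/-- the curves with height `≤ Y²` are covered -/
theorem coverHt (Y : ℝ) (Q : ℝ → ℝ → ℝ → Prop) (S : Set (ℤ × ℤ))
    (hQ : ∀ N D H : ℝ, Q N D H → H ≤ Y ^ (2 : ℝ))
    (hS : ∀ W : WeierstrassCurve ℤ, W.Δ ≠ 0 → IsCoprime W.c₄ W.Δ →
      (∃ P : (W.baseChange ℚ).toAffine.Point, addOrderOf P = 2) → (cond W : ℝ) ≤ Y →
      Q (cond W) (W.Δ.natAbs) (ht W) → (W.c₄, W.c₆) ∈ S) : CurvesQ Y Q ⊆ S ∪ restHt Y := by
  rintro c ⟨W, h4, h6, hΔ, hss, hP, hN, hq⟩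
  have hH := hQ _ _ _ hq
  have hD := (disc_le_ht W).trans hH
  rcases red_cases W hP with hP | hP | hP | hP | hP
  · left
    have h := hS W hΔ hss hP hN hq
    rw [h4, h6] at h
    exact h
  · exact Or.inr (Or.inl ⟨W, h4, h6, hΔ, hss, hP, hH⟩)
  · exact Or.inr (Or.inr (Or.inl ⟨W, h4, h6, hΔ, hss, hP, hN, hD⟩))
  · exact Or.inr (Or.inr (Or.inr (Or.inl ⟨W, h4, h6, hΔ, hss, hP, hN, hD⟩)))
  · exact Or.inr (Or.inr (Or.inr (Or.inr ⟨W, h4, h6, hΔ, hss, hP, hN, hD⟩)))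

theorem curves_finite (Y κ : ℝ) (hκ : 1 ≤ κ) (hY : 1 ≤ Y) (Q : ℝ → ℝ → ℝ → Prop)
    (hQ : ∀ N D H : ℝ, Q N D H → D ≤ Y ^ κ) : (CurvesQ Y Q).Finite := by
  obtain ⟨C2, hC2, h2⟩ := twoSet_upper κ 1 (by linarith) one_pos
  obtain ⟨CR, δR, _, _, hR⟩ := rest_few κ hκ
  refine ((h2 Y hY).1.union (hR Y hY).1).subset (cover Y κ Q (twoSet Y κ) hQ ?_)
  intro W hΔ hss hP hN hq
  exact ⟨W, rfl, rfl, hΔ, hss, hP, hN, hQ _ _ _ hq⟩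

theorem curvesHt_finite (Y : ℝ) (hY : 1 ≤ Y) (Q : ℝ → ℝ → ℝ → Prop)
    (hQ : ∀ N D H : ℝ, Q N D H → H ≤ Y ^ (2 : ℝ)) : (CurvesQ Y Q).Finite := by
  obtain ⟨C2, hC2, h2⟩ := twoSet_upper 2 1 (by norm_num) one_pos
  obtain ⟨CR, _, hR⟩ := restHt_few 1 one_pos
  refine ((h2 Y hY).1.union (hR Y hY).1).subset (coverHt Y Q (twoSet Y 2) hQ ?_)
  intro W hΔ hss hP hN hq
  exact ⟨W, rfl, rfl, hΔ, hss, hP, hN, (disc_le_ht W).trans (hQ _ _ _ hq)⟩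

theorem upper (κ : ℝ) (hκ : 1 ≤ κ) : ∃ s₀ : ℝ, 3 / 2 < s₀ ∧ ∀ ε : ℝ, 0 < ε →
    ∃ C : ℝ, 0 < C ∧ ∀ Y : ℝ, 1 ≤ Y → ∀ s : ℝ, s ≤ s₀ →
      (CurvesQ Y fun N D H => N ^ s ≤ H ∧ D ≤ Y ^ κ).Finite ∧
      ((CurvesQ Y fun N D H => N ^ s ≤ H ∧ D ≤ Y ^ κ).ncard : ℝ) ≤
        C * Y ^ (min (3 / 4) (1 - s / 6) + ε) := by
  obtain ⟨CR, δR, hCR, hδR, hR⟩ := rest_few κ hκ
  obtain ⟨δ, hδ, hL⟩ := P4.twoLawH_upper κ (by linarith)
  obtain ⟨d, hd⟩ : ∃ d : ℝ, d = min (min δ δR) (1 / 12) := ⟨_, rfl⟩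
  have hd0 : 0 < d := by rw [hd]; exact lt_min (lt_min hδ hδR) (by norm_num)
  have hd1 : d ≤ δ := by rw [hd]; exact (min_le_left _ _).trans (min_le_left _ _)
  have hd2 : d ≤ δR := by rw [hd]; exact (min_le_left _ _).trans (min_le_right _ _)
  have hd3 : d ≤ 1 / 12 := by rw [hd]; exact min_le_right _ _
  refine ⟨3 / 2 + 6 * d, by linarith, fun ε hε => ?_⟩
  obtain ⟨C1, hC1, h1⟩ := hL ε hε
  obtain ⟨C2, hC2, h2⟩ := twoSet_upper κ ε (by linarith) hε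
  refine ⟨C2 + 2 * C1 + CR, by positivity, fun Y hY s hs => ?_⟩
  refine ⟨curves_finite Y κ hκ hY _ (fun _ _ _ h => h.2), ?_⟩
  obtain ⟨r1, r2⟩ := hR Y hY
  rcases le_total s (3 / 2) with hcase | hcase
  · rw [min_eq_left (by linarith : (3 / 4 : ℝ) ≤ 1 - s / 6)]
    obtain ⟨a1, a2⟩ := h2 Y hY
    have hsub : CurvesQ Y (fun N D H => N ^ s ≤ H ∧ D ≤ Y ^ κ) ⊆ twoSet Y κ ∪ rest Y κ := by
      apply cover Y κ _ _ (fun _ _ _ h => h.2)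
      intro W hΔ hss hP hN hq
      exact ⟨W, rfl, rfl, hΔ, hss, hP, hN, hq.2⟩
    have k1 := Set.ncard_le_ncard hsub (a1.union r1)
    have k2 := Set.ncard_union_le (twoSet Y κ) (rest Y κ)
    have k3 : ((CurvesQ Y (fun N D H => N ^ s ≤ H ∧ D ≤ Y ^ κ)).ncard : ℝ) ≤
        ((twoSet Y κ).ncard : ℝ) + ((rest Y κ).ncard : ℝ) := by exact_mod_cast k1.trans k2
    have e1 : Y ^ (3 / 4 - δR) ≤ Y ^ (3 / 4 + ε) :=
      Real.rpow_le_rpow_of_exponent_le hY (by linarith)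
    have e2 : 0 ≤ Y ^ (3 / 4 + ε) := Real.rpow_nonneg (by linarith) _
    calc ((CurvesQ Y (fun N D H => N ^ s ≤ H ∧ D ≤ Y ^ κ)).ncard : ℝ) ≤
          C2 * Y ^ (3 / 4 + ε) + CR * Y ^ (3 / 4 - δR) := by linarith
      _ ≤ C2 * Y ^ (3 / 4 + ε) + CR * Y ^ (3 / 4 + ε) := by gcongr
      _ ≤ (C2 + 2 * C1 + CR) * Y ^ (3 / 4 + ε) := by nlinarith
  · rw [min_eq_right (by linarith : (1 - s / 6 : ℝ) ≤ 3 / 4)]
    obtain ⟨a1, a2⟩ := h1 s Y hcase (by linarith) hY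
    have hsub : CurvesQ Y (fun N D H => N ^ s ≤ H ∧ D ≤ Y ^ κ) ⊆ P4.twoLawH Y κ s ∪ rest Y κ := by
      apply cover Y κ _ _ (fun _ _ _ h => h.2)
      intro W hΔ hss hP hN hq
      exact ⟨W, rfl, rfl, hΔ, hss, hP, hN, hq.1, hq.2⟩
    have k1 := Set.ncard_le_ncard hsub (a1.union r1)
    have k2 := Set.ncard_union_le (P4.twoLawH Y κ s) (rest Y κ)
    have k3 : ((CurvesQ Y (fun N D H => N ^ s ≤ H ∧ D ≤ Y ^ κ)).ncard : ℝ) ≤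
        ((P4.twoLawH Y κ s).ncard : ℝ) + ((rest Y κ).ncard : ℝ) := by exact_mod_cast k1.trans k2
    have e1 : Y ^ (3 / 4 - δR) ≤ Y ^ (1 - s / 6 + ε) :=
      Real.rpow_le_rpow_of_exponent_le hY (by linarith)
    have e3 : Y ^ (3 / 4 - δ) ≤ Y ^ (1 - s / 6 + ε) :=
      Real.rpow_le_rpow_of_exponent_le hY (by linarith)
    have e2 : 0 ≤ Y ^ (1 - s / 6 + ε) := Real.rpow_nonneg (by linarith) _
    calc ((CurvesQ Y (fun N D H => N ^ s ≤ H ∧ D ≤ Y ^ κ)).ncard : ℝ) ≤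
          C1 * (Y ^ (1 - s / 6 + ε) + Y ^ (3 / 4 - δ)) + CR * Y ^ (3 / 4 - δR) := by linarith
      _ ≤ C1 * (Y ^ (1 - s / 6 + ε) + Y ^ (1 - s / 6 + ε)) + CR * Y ^ (1 - s / 6 + ε) := by gcongr
      _ ≤ (C2 + 2 * C1 + CR) * Y ^ (1 - s / 6 + ε) := by nlinarith

theorem upperHt (ε : ℝ) (hε : 0 < ε) : ∃ C : ℝ, 0 < C ∧ ∀ Y : ℝ, 1 ≤ Y → ∀ s : ℝ, s ≤ 2 →
      (CurvesQ Y fun N D H => N ^ s ≤ H ∧ H ≤ Y ^ (2 : ℝ)).Finite ∧
      ((CurvesQ Y fun N D H => N ^ s ≤ H ∧ H ≤ Y ^ (2 : ℝ)).ncard : ℝ) ≤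
        C * Y ^ (min (3 / 4) (1 - s / 6) + ε) := by
  obtain ⟨CR, hCR, hR⟩ := restHt_few ε hε
  obtain ⟨C1, hC1, h1⟩ := P4.twoHH_upper_two ε hε
  obtain ⟨C2, hC2, h2⟩ := twoSet_upper 2 ε (by norm_num) hε
  refine ⟨C2 + C1 + CR, by positivity, fun Y hY s hs => ?_⟩
  refine ⟨curvesHt_finite Y hY _ (fun _ _ _ h => h.2), ?_⟩
  obtain ⟨r1, r2⟩ := hR Y hY
  rcases le_total s (3 / 2) with hcase | hcase
  · rw [min_eq_left (by linarith : (3 / 4 : ℝ) ≤ 1 - s / 6)]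
    obtain ⟨a1, a2⟩ := h2 Y hY
    have hsub : CurvesQ Y (fun N D H => N ^ s ≤ H ∧ H ≤ Y ^ (2 : ℝ)) ⊆ twoSet Y 2 ∪ restHt Y := by
      apply coverHt Y _ _ (fun _ _ _ h => h.2)
      intro W hΔ hss hP hN hq
      exact ⟨W, rfl, rfl, hΔ, hss, hP, hN, (disc_le_ht W).trans hq.2⟩
    have k1 := Set.ncard_le_ncard hsub (a1.union r1)
    have k2 := Set.ncard_union_le (twoSet Y 2) (restHt Y)
    have k3 : ((CurvesQ Y (fun N D H => N ^ s ≤ H ∧ H ≤ Y ^ (2 : ℝ))).ncard : ℝ) ≤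
        ((twoSet Y 2).ncard : ℝ) + ((restHt Y).ncard : ℝ) := by exact_mod_cast k1.trans k2
    have e1 : Y ^ (2 / 3 + ε) ≤ Y ^ (3 / 4 + ε) :=
      Real.rpow_le_rpow_of_exponent_le hY (by linarith)
    have e2 : 0 ≤ Y ^ (3 / 4 + ε) := Real.rpow_nonneg (by linarith) _
    calc ((CurvesQ Y (fun N D H => N ^ s ≤ H ∧ H ≤ Y ^ (2 : ℝ))).ncard : ℝ) ≤
          C2 * Y ^ (3 / 4 + ε) + CR * Y ^ (2 / 3 + ε) := by linarith
      _ ≤ C2 * Y ^ (3 / 4 + ε) + CR * Y ^ (3 / 4 + ε) := by gcongr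
      _ ≤ (C2 + C1 + CR) * Y ^ (3 / 4 + ε) := by nlinarith
  · rw [min_eq_right (by linarith : (1 - s / 6 : ℝ) ≤ 3 / 4)]
    obtain ⟨a1, a2⟩ := h1 s Y hcase hs hY
    have hsub : CurvesQ Y (fun N D H => N ^ s ≤ H ∧ H ≤ Y ^ (2 : ℝ)) ⊆
        P4.twoHH Y (Y ^ (2 : ℝ)) s ∪ restHt Y := by
      apply coverHt Y _ _ (fun _ _ _ h => h.2)
      intro W hΔ hss hP hN hq
      exact ⟨W, rfl, rfl, hΔ, hss, hP, hN, hq.1, hq.2⟩
    have k1 := Set.ncard_le_ncard hsub (a1.union r1)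
    have k2 := Set.ncard_union_le (P4.twoHH Y (Y ^ (2 : ℝ)) s) (restHt Y)
    have k3 : ((CurvesQ Y (fun N D H => N ^ s ≤ H ∧ H ≤ Y ^ (2 : ℝ))).ncard : ℝ) ≤
        ((P4.twoHH Y (Y ^ (2 : ℝ)) s).ncard : ℝ) + ((restHt Y).ncard : ℝ) := by
      exact_mod_cast k1.trans k2
    have e1 : Y ^ (2 / 3 + ε) ≤ Y ^ (1 - s / 6 + ε) :=
      Real.rpow_le_rpow_of_exponent_le hY (by linarith)
    have e2 : 0 ≤ Y ^ (1 - s / 6 + ε) := Real.rpow_nonneg (by linarith) _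
    calc ((CurvesQ Y (fun N D H => N ^ s ≤ H ∧ H ≤ Y ^ (2 : ℝ))).ncard : ℝ) ≤
          C1 * Y ^ (1 - s / 6 + ε) + CR * Y ^ (2 / 3 + ε) := by linarith
      _ ≤ C1 * Y ^ (1 - s / 6 + ε) + CR * Y ^ (1 - s / 6 + ε) := by gcongr
      _ ≤ (C2 + C1 + CR) * Y ^ (1 - s / 6 + ε) := by nlinarith

theorem exceptions (κ : ℝ) (hκ : 1 ≤ κ) (ε : ℝ) (hε : 0 < ε) : ∃ C δ : ℝ, 0 < C ∧ 0 < δ ∧
    ∀ Y : ℝ, 1 ≤ Y → ((CurvesQ Y fun N D H => D ≤ Y ^ κ ∧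
      ¬ (N ^ (3 / 2 - ε) ≤ D ∧ H ≤ N ^ (3 / 2 + ε))).ncard : ℝ) ≤
        C * Y ^ (3 / 4 - δ) := by
  have hκ0 : 0 < κ := by linarith
  obtain ⟨e, he⟩ : ∃ e : ℝ, e = min ε 1 := ⟨_, rfl⟩
  have he0 : 0 < e := by rw [he]; exact lt_min hε one_pos
  have he1 : e ≤ 1 := by rw [he]; exact min_le_right _ _
  have heε : e ≤ ε := by rw [he]; exact min_le_left _ _
  obtain ⟨C, δ0, hC, hδ0, h⟩ := Hp.modSet_few_gen κ (-3 / 2 + e / 6) (e - 9 / 2) hκ0 (by linarith)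
    (by linarith) (Hp.main_true (κ + 4) (e / 6) (by linarith) (by positivity))
  obtain ⟨CL, δL, hCL, hδL, hL⟩ := Hp.lowSet_few e he0 he1
  obtain ⟨CR, δR, hCR, hδR, hR⟩ := rest_few κ hκ
  obtain ⟨d, hd⟩ : ∃ d : ℝ, d = min (min δ0 δL) δR := ⟨_, rfl⟩
  have hd0 : 0 < d := by rw [hd]; exact lt_min (lt_min hδ0 hδL) hδR
  have hdδ : d ≤ δ0 := by rw [hd]; exact (min_le_left _ _).trans (min_le_left _ _)
  have hdL : d ≤ δL := by rw [hd]; exact (min_le_left _ _).trans (min_le_right _ _)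
  have hdR : d ≤ δR := by rw [hd]; exact min_le_right _ _
  refine ⟨C + CL + CR, d, by positivity, hd0, fun Y hY => ?_⟩
  obtain ⟨a1, a2⟩ := h Y hY
  obtain ⟨l1, l2⟩ := hL κ Y hY
  obtain ⟨r1, r2⟩ := hR Y hY
  have hsub : (CurvesQ Y fun N D H => D ≤ Y ^ κ ∧
      ¬ (N ^ (3 / 2 - ε) ≤ D ∧ H ≤ N ^ (3 / 2 + ε))) ⊆
      (Hp.modSet Y κ (e - 9 / 2) ∪ Hp.lowSet Y κ e) ∪ rest Y κ := by
    apply cover Y κ _ _ (fun _ _ _ h => h.1)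
    intro W hΔ hss hP hN hq
    obtain ⟨hD, hz⟩ := hq
    have hN1 := one_le_cond W
    rw [not_and_or, not_le, not_le] at hz
    rcases hz with hz | hz
    · right
      refine ⟨W, rfl, rfl, hΔ, hss, hP, hN, lt_of_lt_of_le hz ?_, hD⟩
      exact Real.rpow_le_rpow_of_exponent_le hN1 (by linarith)
    · left
      refine ⟨W, rfl, rfl, hΔ, hss, hP, hN, lt_of_le_of_lt ?_ hz, hD⟩
      exact Real.rpow_le_rpow_of_exponent_le hN1 (by linarith)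
  have k1 := Set.ncard_le_ncard hsub ((a1.union l1).union r1)
  have k2 := Set.ncard_union_le (Hp.modSet Y κ (e - 9 / 2) ∪ Hp.lowSet Y κ e) (rest Y κ)
  have k4 := Set.ncard_union_le (Hp.modSet Y κ (e - 9 / 2)) (Hp.lowSet Y κ e)
  have k5 : (CurvesQ Y fun N D H => D ≤ Y ^ κ ∧
      ¬ (N ^ (3 / 2 - ε) ≤ D ∧ H ≤ N ^ (3 / 2 + ε))).ncard ≤
      ((Hp.modSet Y κ (e - 9 / 2)).ncard + (Hp.lowSet Y κ e).ncard) + (rest Y κ).ncard := by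
    omega
  have k6 : ((CurvesQ Y fun N D H => D ≤ Y ^ κ ∧
      ¬ (N ^ (3 / 2 - ε) ≤ D ∧ H ≤ N ^ (3 / 2 + ε))).ncard : ℝ) ≤
      (((Hp.modSet Y κ (e - 9 / 2)).ncard : ℝ) + ((Hp.lowSet Y κ e).ncard : ℝ)) +
        ((rest Y κ).ncard : ℝ) := by
    exact_mod_cast k5
  have e1 : Y ^ (3 / 4 - δ0) ≤ Y ^ (3 / 4 - d) :=
    Real.rpow_le_rpow_of_exponent_le hY (by linarith)
  have e3 : Y ^ (3 / 4 - δL) ≤ Y ^ (3 / 4 - d) :=
    Real.rpow_le_rpow_of_exponent_le hY (by linarith)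
  have e4 : Y ^ (3 / 4 - δR) ≤ Y ^ (3 / 4 - d) :=
    Real.rpow_le_rpow_of_exponent_le hY (by linarith)
  refine k6.trans ?_
  calc (((Hp.modSet Y κ (e - 9 / 2)).ncard : ℝ) + ((Hp.lowSet Y κ e).ncard : ℝ)) +
        ((rest Y κ).ncard : ℝ) ≤
        (C * Y ^ (3 / 4 - δ0) + CL * Y ^ (3 / 4 - δL)) + CR * Y ^ (3 / 4 - δR) := by linarith
    _ ≤ (C * Y ^ (3 / 4 - d) + CL * Y ^ (3 / 4 - d)) + CR * Y ^ (3 / 4 - d) := by gcongr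
    _ = (C + CL + CR) * Y ^ (3 / 4 - d) := by ring

/-- the minimal discriminant `|Δ|` -/
def disc (W : WeierstrassCurve ℤ) : ℕ := W.Δ.natAbs

/-- The semistable elliptic curves `W` over `ℚ` (up to isomorphism) with `Reducible W`, with
conductor `N ≤ Y` and with `N ^ s ≤ F W ≤ Y ^ κ`, where `F` is `disc` or `ht`. -/
def Curves (F : WeierstrassCurve ℤ → ℕ) (κ s Y : ℝ) : Set (ℤ × ℤ) :=
  {c | ∃ W : WeierstrassCurve ℤ, W.c₄ = c.1 ∧ W.c₆ = c.2 ∧ W.Δ ≠ 0 ∧ IsCoprime W.c₄ W.Δ ∧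
    Reducible W ∧ (cond W : ℝ) ≤ Y ∧ (cond W : ℝ) ^ s ≤ (F W : ℝ) ∧ (F W : ℝ) ≤ Y ^ κ}

theorem disc_le_F (F : WeierstrassCurve ℤ → ℕ) (hF : F = disc ∨ F = ht) (W : WeierstrassCurve ℤ) :
    ((W.Δ.natAbs : ℕ) : ℝ) ≤ (F W : ℝ) := by
  rcases hF with rfl | rfl
  · exact le_rfl
  · exact disc_le_ht W

theorem F_le_ht (F : WeierstrassCurve ℤ → ℕ) (hF : F = disc ∨ F = ht) (W : WeierstrassCurve ℤ) :
    (F W : ℝ) ≤ (ht W : ℝ) := by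
  rcases hF with rfl | rfl
  · exact disc_le_ht W
  · exact le_rfl

theorem finite_all (F : WeierstrassCurve ℤ → ℕ) (hF : F = disc ∨ F = ht) (κ : ℝ) (hκ : 3 / 2 < κ)
    (s Y : ℝ) : (Curves F κ s Y).Finite := by
  rcases lt_or_ge Y 1 with hY | hY
  · have h0 : Curves F κ s Y = ∅ := by
      rw [Set.eq_empty_iff_forall_notMem]
      rintro c ⟨W, _, _, _, _, _, hN, _⟩
      linarith [one_le_cond W]
    rw [h0]
    exact Set.finite_empty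
  · refine (curves_finite Y κ (by linarith) hY (fun _ D _ => D ≤ Y ^ κ) (fun _ _ _ h => h)).subset ?_
    rintro c ⟨W, h4, h6, hΔ, hss, hP, hN, _, hD⟩
    exact ⟨W, h4, h6, hΔ, hss, hP, hN, (disc_le_F F hF W).trans hD⟩

/-- the number of all curves with `|Δ| ≤ Y ^ κ`, up to few -/
theorem total_le (F : WeierstrassCurve ℤ → ℕ) (hF : F = disc ∨ F = ht) (κ : ℝ) (hκ : 3 / 2 < κ)
    (s : ℝ) (hs : s < 3 / 2) : ∃ C δ : ℝ, 0 < C ∧ 0 < δ ∧ ∀ Y : ℝ, 1 ≤ Y →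
      ((twoSet Y κ).ncard : ℝ) ≤ ((Curves F κ s Y).ncard : ℝ) + C * Y ^ (3 / 4 - δ) ∧
      ((Curves F κ s Y).ncard : ℝ) ≤ ((twoSet Y κ).ncard : ℝ) + C * Y ^ (3 / 4 - δ) := by
  obtain ⟨ε, hε⟩ : ∃ ε : ℝ, ε = min (3 / 2 - s) (κ - 3 / 2) := ⟨_, rfl⟩
  have hε0 : 0 < ε := by rw [hε]; exact lt_min (by linarith) (by linarith)
  have hεs : ε ≤ 3 / 2 - s := by rw [hε]; exact min_le_left _ _
  have hεκ : ε ≤ κ - 3 / 2 := by rw [hε]; exact min_le_right _ _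
  obtain ⟨C1, δ1, hC1, hδ1, h1⟩ := exceptions κ (by linarith) ε hε0
  obtain ⟨C2, δ2, hC2, hδ2, h2⟩ := rest_few κ (by linarith)
  obtain ⟨C3, hC3, h3⟩ := twoSet_upper κ 1 (by linarith) one_pos
  refine ⟨C1 + C2, min δ1 δ2, by positivity, lt_min hδ1 hδ2, fun Y hY => ?_⟩
  have hY0 : 0 < Y := by linarith
  have e1 : Y ^ (3 / 4 - δ1) ≤ Y ^ (3 / 4 - min δ1 δ2) :=
    Real.rpow_le_rpow_of_exponent_le hY (by linarith [min_le_left δ1 δ2])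
  have e2 : Y ^ (3 / 4 - δ2) ≤ Y ^ (3 / 4 - min δ1 δ2) :=
    Real.rpow_le_rpow_of_exponent_le hY (by linarith [min_le_right δ1 δ2])
  have e0 : 0 ≤ Y ^ (3 / 4 - min δ1 δ2) := Real.rpow_nonneg hY0.le _
  have f1 := finite_all F hF κ hκ s Y
  obtain ⟨f2, b2⟩ := h2 Y hY
  obtain ⟨f3, -⟩ := h3 Y hY
  have b1 := h1 Y hY
  have f4 : (CurvesQ Y fun N D H => D ≤ Y ^ κ ∧
      ¬ (N ^ (3 / 2 - ε) ≤ D ∧ H ≤ N ^ (3 / 2 + ε))).Finite :=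
    curves_finite Y κ (by linarith) hY _ (fun _ _ _ h => h.1)
  constructor
  · have hsub : twoSet Y κ ⊆ Curves F κ s Y ∪ CurvesQ Y (fun N D H => D ≤ Y ^ κ ∧
        ¬ (N ^ (3 / 2 - ε) ≤ D ∧ H ≤ N ^ (3 / 2 + ε))) := by
      rintro c ⟨W, h4, h6, hΔ, hss, hP, hN, hD⟩
      have hN1 := one_le_cond W
      have hN' : (cond W : ℝ) ≤ Y := hN
      by_cases hq : (cond W : ℝ) ^ (3 / 2 - ε) ≤ ((W.Δ.natAbs : ℕ) : ℝ) ∧
          (ht W : ℝ) ≤ (cond W : ℝ) ^ (3 / 2 + ε)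
      · left
        refine ⟨W, h4, h6, hΔ, hss, red_of_two W hP, hN, ?_, ?_⟩
        · refine le_trans ?_ (hq.1.trans (disc_le_F F hF W))
          exact Real.rpow_le_rpow_of_exponent_le hN1 (by linarith)
        · refine (F_le_ht F hF W).trans (hq.2.trans ?_)
          refine (Real.rpow_le_rpow (by linarith) hN' (by linarith)).trans ?_
          exact Real.rpow_le_rpow_of_exponent_le hY (by linarith)
      · right
        exact ⟨W, h4, h6, hΔ, hss, red_of_two W hP, hN, hD, hq⟩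
    have k1 := (Set.ncard_le_ncard hsub (f1.union f4)).trans (Set.ncard_union_le _ _)
    have k2 : ((twoSet Y κ).ncard : ℝ) ≤ ((Curves F κ s Y).ncard : ℝ) +
        ((CurvesQ Y fun N D H => D ≤ Y ^ κ ∧
          ¬ (N ^ (3 / 2 - ε) ≤ D ∧ H ≤ N ^ (3 / 2 + ε))).ncard : ℝ) := by exact_mod_cast k1
    have k3 : C1 * Y ^ (3 / 4 - δ1) ≤ C1 * Y ^ (3 / 4 - min δ1 δ2) :=
      mul_le_mul_of_nonneg_left e1 hC1.le
    have k4 : 0 ≤ C2 * Y ^ (3 / 4 - min δ1 δ2) := mul_nonneg hC2.le e0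
    have k5 : (C1 + C2) * Y ^ (3 / 4 - min δ1 δ2) = C1 * Y ^ (3 / 4 - min δ1 δ2) +
        C2 * Y ^ (3 / 4 - min δ1 δ2) := by ring
    rw [k5]
    linarith
  · have hsub : Curves F κ s Y ⊆ twoSet Y κ ∪ rest Y κ := by
      have hc := cover Y κ (fun _ D _ => D ≤ Y ^ κ) (twoSet Y κ) (fun _ _ _ h => h)
        (fun W hΔ hss hP hN hq => ⟨W, rfl, rfl, hΔ, hss, hP, hN, hq⟩)
      refine Set.Subset.trans ?_ hc
      rintro c ⟨W, h4, h6, hΔ, hss, hP, hN, _, hD⟩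
      exact ⟨W, h4, h6, hΔ, hss, hP, hN, (disc_le_F F hF W).trans hD⟩
    have k1 := (Set.ncard_le_ncard hsub (f3.union f2)).trans (Set.ncard_union_le _ _)
    have k2 : ((Curves F κ s Y).ncard : ℝ) ≤ ((twoSet Y κ).ncard : ℝ) +
        ((rest Y κ).ncard : ℝ) := by exact_mod_cast k1
    have k3 : C2 * Y ^ (3 / 4 - δ2) ≤ C2 * Y ^ (3 / 4 - min δ1 δ2) :=
      mul_le_mul_of_nonneg_left e2 hC2.le
    have k4 : 0 ≤ C1 * Y ^ (3 / 4 - min δ1 δ2) := mul_nonneg hC1.le e0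
    have k5 : (C1 + C2) * Y ^ (3 / 4 - min δ1 δ2) = C1 * Y ^ (3 / 4 - min δ1 δ2) +
        C2 * Y ^ (3 / 4 - min δ1 δ2) := by ring
    rw [k5]
    linarith

theorem tendsto_small (C δ : ℝ) (hδ : 0 < δ) :
    Tendsto (fun Y : ℝ => C * Y ^ (3 / 4 - δ) / Y ^ (3 / 4 : ℝ)) atTop (𝓝 0) := by
  have h1 : Tendsto (fun Y : ℝ => C * Y ^ (-δ)) atTop (𝓝 (C * 0)) :=
    (tendsto_rpow_neg_atTop hδ).const_mul C
  rw [mul_zero] at h1
  refine h1.congr' ?_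
  filter_upwards [eventually_gt_atTop 0] with Y hY
  rw [mul_div_assoc, ← Real.rpow_sub hY]
  congr 2
  ring

theorem asymp (c : ℝ) (F : WeierstrassCurve ℤ → ℕ) (hF : F = disc ∨ F = ht) (κ : ℝ)
    (hκ : 3 / 2 < κ)
    (hc : Tendsto (fun Y : ℝ => (((twoSet Y κ).ncard : ℕ) : ℝ) / Y ^ (3 / 4 : ℝ)) atTop (𝓝 c))
    (s : ℝ) (hs : s < 3 / 2) :
    Tendsto (fun Y : ℝ => ((Curves F κ s Y).ncard : ℝ) / Y ^ (3 / 4 : ℝ)) atTop (𝓝 c) := by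
  obtain ⟨C, δ, hC, hδ, h⟩ := total_le F hF κ hκ s hs
  have h0 := tendsto_small C δ hδ
  have hl := hc.sub h0
  have hu := hc.add h0
  rw [sub_zero] at hl
  rw [add_zero] at hu
  refine tendsto_of_tendsto_of_tendsto_of_le_of_le' hl hu ?_ ?_
  · filter_upwards [eventually_ge_atTop 1] with Y hY
    have hY0 : 0 < Y ^ (3 / 4 : ℝ) := Real.rpow_pos_of_pos (by linarith) _
    rw [← sub_div]
    exact div_le_div_of_nonneg_right (by linarith [(h Y hY).1]) hY0.le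
  · filter_upwards [eventually_ge_atTop 1] with Y hY
    have hY0 : 0 < Y ^ (3 / 4 : ℝ) := Real.rpow_pos_of_pos (by linarith) _
    rw [← add_div]
    exact div_le_div_of_nonneg_right (by linarith [(h Y hY).2]) hY0.le

theorem lower_all (F : WeierstrassCurve ℤ → ℕ) (hF : F = disc ∨ F = ht) (κ : ℝ) (hκ : 3 / 2 < κ)
    (s : ℝ) (hs : 3 / 2 ≤ s) (hsκ : s < κ) (hs6 : s < 6) : ∃ b Y₀ : ℝ, 0 < b ∧
      ∀ Y : ℝ, Y₀ ≤ Y → b * Y ^ (1 - s / 6) ≤ ((Curves F κ s Y).ncard : ℝ) := by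
  obtain ⟨b, Y0, hb, hY0, h⟩ := P4.two_lower s hs hs6
  obtain ⟨Y1, hY1, hk⟩ := P4.const_le s κ hsκ
  refine ⟨b, max Y0 Y1, hb, fun Y hY => ?_⟩
  have hYa : Y0 ≤ Y := (le_max_left _ _).trans hY
  have hYb : Y1 ≤ Y := (le_max_right _ _).trans hY
  obtain ⟨G, hG1, hG2⟩ := h Y hYa
  refine hG2.trans ?_
  have hsub : (G : Set (ℤ × ℤ)) ⊆ Curves F κ s Y := by
    intro c hc
    obtain ⟨⟨W, h4, h6, hΔ, hss, hP, hN, hs', hD⟩, ⟨W', h4', h6', hΔ', hss', hP', hN', hs'', hH⟩⟩ :=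
      hG1 hc
    rcases hF with rfl | rfl
    · refine ⟨W, h4, h6, hΔ, hss, red_of_two W hP, hN, hs', hD.trans ?_⟩
      exact Real.rpow_le_rpow_of_exponent_le (hY1.trans hYb) hsκ.le
    · exact ⟨W', h4', h6', hΔ', hss', red_of_two W' hP', hN', hs''.trans (disc_le_ht W'),
        hH.trans (hk Y hYb)⟩
  have k := Set.ncard_le_ncard hsub (finite_all F hF κ hκ s Y)
  rw [Set.ncard_coe_finset] at k
  exact_mod_cast k

theorem upper_all (F : WeierstrassCurve ℤ → ℕ) (hF : F = disc ∨ F = ht) (κ : ℝ)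
    (hκ : 3 / 2 < κ) : ∃ s₀ : ℝ, 3 / 2 < s₀ ∧ (F = ht → κ ≤ 2 → s₀ = 2) ∧
      ∀ ε : ℝ, 0 < ε → ∃ C : ℝ, ∀ s Y : ℝ, 3 / 2 ≤ s → s ≤ s₀ → 1 ≤ Y →
        ((Curves F κ s Y).ncard : ℝ) ≤ C * Y ^ (1 - s / 6 + ε) := by
  by_cases hc : F = ht ∧ κ ≤ 2
  · obtain ⟨rfl, hκ2⟩ := hc
    refine ⟨2, by norm_num, fun _ _ => rfl, fun ε hε => ?_⟩
    obtain ⟨C, hC, h⟩ := upperHt ε hε
    refine ⟨C, fun s Y hs1 hs2 hY => ?_⟩
    obtain ⟨f, b⟩ := h Y hY s hs2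
    rw [min_eq_right (by linarith : (1 - s / 6 : ℝ) ≤ 3 / 4)] at b
    refine le_trans ?_ b
    have hsub : Curves ht κ s Y ⊆ CurvesQ Y (fun N D H => N ^ s ≤ H ∧ H ≤ Y ^ (2 : ℝ)) := by
      rintro c ⟨W, h4, h6, hΔ, hss, hP, hN, hs, hH⟩
      exact ⟨W, h4, h6, hΔ, hss, hP, hN, hs,
        hH.trans (Real.rpow_le_rpow_of_exponent_le hY hκ2)⟩
    exact_mod_cast Set.ncard_le_ncard hsub f
  · obtain ⟨s₀, hs₀, hU⟩ := upper κ (by linarith)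
    refine ⟨s₀, hs₀, fun h1 h2 => absurd ⟨h1, h2⟩ hc, fun ε hε => ?_⟩
    obtain ⟨C, hC, h⟩ := hU ε hε
    refine ⟨C, fun s Y hs1 hs2 hY => ?_⟩
    obtain ⟨f, b⟩ := h Y hY s hs2
    rw [min_eq_right (by linarith : (1 - s / 6 : ℝ) ≤ 3 / 4)] at b
    refine le_trans ?_ b
    have hsub : Curves F κ s Y ⊆ CurvesQ Y (fun N D H => N ^ s ≤ H ∧ D ≤ Y ^ κ) := by
      rintro c ⟨W, h4, h6, hΔ, hss, hP, hN, hs, hH⟩
      exact ⟨W, h4, h6, hΔ, hss, hP, hN, hs.trans (F_le_ht F hF W),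
        (disc_le_F F hF W).trans hH⟩
    exact_mod_cast Set.ncard_le_ncard hsub f

/-- **The distribution of the Szpiro ratio.**  Let `F` be `|Δ|` or the height `max |c₄|³ |c₆|²`, and let
`T_κ(Y, s)` be the number of the semistable elliptic curves over `ℚ` (up to isomorphism) with a
rational isogeny of degree 2, 3, 5 or 7 or a rational torsion point `P ≠ 0`, with conductor `N ≤ Y`
and with `N ^ s ≤ F ≤ Y ^ κ`.  There is `c > 0` such that for both `F` and all `κ > 3/2`: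

`T_κ(Y, s)` is finite; `T_κ(Y, s) ~ c Y ^ (3/4)` for all `s < 3/2`; for all `3/2 ≤ s < 6` with
`s < κ` there is `b > 0` with `T_κ(Y, s) ≥ b Y ^ (1 - s/6)` for all large `Y`; there is `s₀ > 3/2`
(`s₀ = 2` if `F` is the height and `κ ≤ 2`) such that `T_κ(Y, s) ≤ C Y ^ (1 - s/6 + ε)` for all
`ε > 0`, `3/2 ≤ s ≤ s₀`, `Y ≥ 1`, where `C` depends on `κ` and `ε`. -/
theorem result : ∃ c : ℝ, 0 < c ∧ ∀ F : WeierstrassCurve ℤ → ℕ, (F = disc ∨ F = ht) →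
    ∀ κ : ℝ, 3 / 2 < κ →
      (∀ s Y : ℝ, (Curves F κ s Y).Finite) ∧
      (∀ s : ℝ, s < 3 / 2 →
        Tendsto (fun Y : ℝ => ((Curves F κ s Y).ncard : ℝ) / Y ^ (3 / 4 : ℝ)) atTop (𝓝 c)) ∧
      (∀ s : ℝ, 3 / 2 ≤ s → s < κ → s < 6 → ∃ b Y₀ : ℝ, 0 < b ∧ ∀ Y : ℝ, Y₀ ≤ Y →
        b * Y ^ (1 - s / 6) ≤ ((Curves F κ s Y).ncard : ℝ)) ∧
      ∃ s₀ : ℝ, 3 / 2 < s₀ ∧ (F = ht → κ ≤ 2 → s₀ = 2) ∧
        ∀ ε : ℝ, 0 < ε → ∃ C : ℝ, ∀ s Y : ℝ, 3 / 2 ≤ s → s ≤ s₀ → 1 ≤ Y →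
          ((Curves F κ s Y).ncard : ℝ) ≤ C * Y ^ (1 - s / 6 + ε) := by
  obtain ⟨c, hc, h⟩ := As.two_asymp
  exact ⟨c, hc, fun F hF κ hκ => ⟨finite_all F hF κ hκ, asymp c F hF κ hκ (h κ hκ),
    lower_all F hF κ hκ, upper_all F hF κ hκ⟩⟩

end Pool.Agent.Results.MP_d8bd92_nt.RationalIsogeny
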