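import Pool.Agent.Lib.MP_d8bd92_nt.SqT6
import Pool.Agent.Lib.MP_d8bd92_nt.SqL1
import Pool.Agent.Lib.MP_d8bd92_nt.SqAll
import Pool.Agent.Lib.MP_d8bd92_nt.SqR
import Pool.Agent.Lib.MP_d8bd92_nt.ToE

set_option autoImplicit false

/-!
All semistable elliptic curves over `ℚ`, counted by conductor: for almost all of them, with a power
saving, the squarefree part of the discriminant is larger than `Y ^ (1/3 - 2a)`.

A `WeierstrassCurve ℤ` with nonzero discriminant `Δ` coprime to `c₄` is exactly a (global minimal)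
integral model of a semistable elliptic curve over `ℚ`; its conductor `N` is the product of the
primes dividing `Δ`, and the pair `(c₄, c₆)` determines the curve up to isomorphism over `ℚ` (and
is determined by it).  So the sets below count isomorphism classes of curves.
-/

namespace Pool.Agent.Results.MP_d8bd92_nt.SmallSquarefreePart

open Pool.Agent.Lib.SqPart Pool.Agent.Lib.Szpiro Pool.Agent.Lib.MP_d8bd92_nt

/-- The isomorphism classes `(c₄, c₆)` of the semistable elliptic curves over `ℚ` with conductor at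
most `Y` and `|Δ| ≤ Y ^ κ` which have the property `P`. -/
def Curves (κ Y : ℝ) (P : WeierstrassCurve ℤ → Prop) : Set (ℤ × ℤ) :=
  {c : ℤ × ℤ | ∃ W : WeierstrassCurve ℤ, W.c₄ = c.1 ∧ W.c₆ = c.2 ∧ W.Δ ≠ 0 ∧
    IsCoprime W.c₄ W.Δ ∧ ((∏ p ∈ W.Δ.natAbs.primeFactors, p : ℕ) : ℝ) ≤ Y ∧
    |(W.Δ : ℝ)| ≤ Y ^ κ ∧ P W}

/-- The discriminant is `d t ^ 2` with integers `d`, `t`, `|d| ≤ X`. -/
def SmallPart (X : ℝ) (W : WeierstrassCurve ℤ) : Prop :=
  ∃ d t : ℤ, W.Δ = d * t ^ 2 ∧ |(d : ℝ)| ≤ X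

/-- There is no rational point of order two. -/
def NoTwo (W : WeierstrassCurve ℤ) : Prop :=
  ∀ P : (W.baseChange ℚ).toAffine.Point, addOrderOf P ≠ 2

/-- the squarefree part is at most the radical -/
theorem small_self (W : WeierstrassCurve ℤ) (h0 : W.Δ ≠ 0) (Y : ℝ)
    (h : ((∏ p ∈ W.Δ.natAbs.primeFactors, p : ℕ) : ℝ) ≤ Y) : SmallPart Y W := by
  obtain ⟨a, b, hab, ha⟩ := Nat.sq_mul_squarefree W.Δ.natAbs
  have hn0 : W.Δ.natAbs ≠ 0 := Int.natAbs_ne_zero.mpr h0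
  have hb0 : b ≠ 0 := by
    rintro rfl
    rw [zero_pow two_ne_zero, zero_mul] at hab
    exact hn0 hab.symm
  refine ⟨W.Δ.sign * a, b, ?_, ?_⟩
  · have h1 : ((a : ℤ) * (b : ℤ) ^ 2) = (W.Δ.natAbs : ℤ) := by
      rw [← hab]
      push_cast
      ring
    rw [mul_assoc, h1]
    exact (Int.sign_mul_natAbs W.Δ).symm
  · have h1 : |((W.Δ.sign * (a : ℤ) : ℤ) : ℝ)| = (a : ℝ) := by
      have h2 : (W.Δ.sign * (a : ℤ)).natAbs = a := by
        rw [Int.natAbs_mul, Int.natAbs_natCast, Int.natAbs_sign_of_ne_zero h0, one_mul]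
      have h3 : |((W.Δ.sign * (a : ℤ) : ℤ) : ℝ)| = (((W.Δ.sign * (a : ℤ)).natAbs : ℕ) : ℝ) := by
        rw [Nat.cast_natAbs]
        push_cast
        rfl
      rw [h3, h2]
    rw [h1]
    refine le_trans ?_ h
    have h4 : a ∣ ∏ p ∈ W.Δ.natAbs.primeFactors, p := by
      have h5 : a = ∏ p ∈ a.primeFactors, p := (Nat.prod_primeFactors_of_squarefree ha).symm
      rw [h5]
      apply Finset.prod_dvd_prod_of_subset
      apply Nat.primeFactors_mono _ hn0
      rw [← hab]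
      exact Dvd.intro_left _ rfl
    have h6 : 0 < ∏ p ∈ W.Δ.natAbs.primeFactors, p :=
      Finset.prod_pos fun p hp => (Nat.prime_of_mem_primeFactors hp).pos
    exact_mod_cast Nat.le_of_dvd h6 h4

/-- For all `κ ≥ 2` and `ε > 0` there are `c > 0` and `C` such that for all `11 ≤ X ≤ Y`: the set
of all semistable elliptic curves over `ℚ` of conductor at most `Y` and with `|Δ| ≤ Y ^ κ` is
finite, it has at least `c Y ^ (5/6)` elements, and the number of those with `Δ` equal to a square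
times an integer `d`, `|d| ≤ X`, is at most
`C Y ^ ε (Y ^ (3/4) + X ^ (1/2) Y ^ (2/3) + X ^ (3/4) Y ^ (1/2))`; the number of the latter without
rational point of order two is at least `c Y ^ (2/3)` and at most
`C Y ^ ε (X ^ (1/2) Y ^ (2/3) + X ^ (3/4) Y ^ (1/2))`. -/
theorem result (κ ε : ℝ) (hκ : 2 ≤ κ) (hε : 0 < ε) :
    ∃ c C : ℝ, 0 < c ∧ ∀ X Y : ℝ, 11 ≤ X → X ≤ Y →
      (Curves κ Y (fun _ => True)).Finite ∧
      c * Y ^ (5 / 6 : ℝ) ≤ ((Curves κ Y (fun _ => True)).ncard : ℝ) ∧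
      ((Curves κ Y (SmallPart X)).ncard : ℝ) ≤ C * Y ^ ε * (Y ^ (3 / 4 : ℝ) +
        X ^ (1 / 2 : ℝ) * Y ^ (2 / 3 : ℝ) + X ^ (3 / 4 : ℝ) * Y ^ (1 / 2 : ℝ)) ∧
      c * Y ^ (2 / 3 : ℝ) ≤ ((Curves κ Y (fun W => SmallPart X W ∧ NoTwo W)).ncard : ℝ) ∧
      ((Curves κ Y (fun W => SmallPart X W ∧ NoTwo W)).ncard : ℝ) ≤
        C * Y ^ ε * (X ^ (1 / 2 : ℝ) * Y ^ (2 / 3 : ℝ) + X ^ (3 / 4 : ℝ) * Y ^ (1 / 2 : ℝ)) := by
  obtain ⟨c, hc, hlow⟩ := sq_lower
  obtain ⟨c', hc', hlow'⟩ := sq_all_lower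
  obtain ⟨C, hC, hup⟩ := sq_main_all κ ε (by linarith) hε
  obtain ⟨C2, hC2, htwo⟩ := twoSet_upper κ ε (by linarith) hε
  -- the bounds for the two sets with small squarefree part
  have main : ∀ X Y : ℝ, 11 ≤ X → X ≤ Y →
      (Curves κ Y (SmallPart X)).Finite ∧
      ((Curves κ Y (SmallPart X)).ncard : ℝ) ≤ (C + C2) * Y ^ ε * (Y ^ (3 / 4 : ℝ) +
        X ^ (1 / 2 : ℝ) * Y ^ (2 / 3 : ℝ) + X ^ (3 / 4 : ℝ) * Y ^ (1 / 2 : ℝ)) ∧
      c * Y ^ (2 / 3 : ℝ) ≤ ((Curves κ Y (fun W => SmallPart X W ∧ NoTwo W)).ncard : ℝ) ∧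
      ((Curves κ Y (fun W => SmallPart X W ∧ NoTwo W)).ncard : ℝ) ≤
        (C + C2) * Y ^ ε *
          (X ^ (1 / 2 : ℝ) * Y ^ (2 / 3 : ℝ) + X ^ (3 / 4 : ℝ) * Y ^ (1 / 2 : ℝ)) := by
    intro X Y hX hXY
    have hY11 : 11 ≤ Y := hX.trans hXY
    have hY1 : 1 ≤ Y := by linarith
    have hY0 : 0 < Y := by linarith
    have hX0 : 0 < X := by linarith
    obtain ⟨htf, htc⟩ := htwo Y hY1
    set B := X ^ (1 / 2 : ℝ) * Y ^ (2 / 3 : ℝ) + X ^ (3 / 4 : ℝ) * Y ^ (1 / 2 : ℝ) with hB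
    have hB0 : 0 ≤ B := by positivity
    have hYε : 0 < Y ^ ε := Real.rpow_pos_of_pos hY0 _
    have hY34 : 0 < Y ^ (3 / 4 : ℝ) := Real.rpow_pos_of_pos hY0 _
    set T := Curves κ Y (fun W => SmallPart X W ∧ NoTwo W) with hT
    -- every finite subset of the set without 2-torsion is bounded
    have hbd : ∀ S : Finset (ℤ × ℤ), (S : Set (ℤ × ℤ)) ⊆ T → (S.card : ℝ) ≤ C * Y ^ ε * B := by
      intro S hS
      apply hup X Y (by linarith) hXY S
      intro w hw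
      obtain ⟨W, h1, h2, h3, h4, h6, h7, h9, h5⟩ := hS hw
      refine ⟨W, ?_, h3, h4, (no_two_iff W h3).mp h5, h6, h7, h9⟩
      rw [h1, h2]
    have hfin : T.Finite := by
      by_contra hinf
      obtain ⟨n, hn⟩ := exists_nat_gt (C * Y ^ ε * B)
      obtain ⟨S, hS, hSn⟩ := Set.Infinite.exists_subset_card_eq hinf n
      have := hbd S hS
      rw [hSn] at this
      linarith
    have hcard : (T.ncard : ℝ) ≤ C * Y ^ ε * B := by
      have := hbd hfin.toFinset (by simp)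
      rwa [← Set.ncard_eq_toFinset_card _ hfin] at this
    have hunion : Curves κ Y (SmallPart X) ⊆ T ∪ twoSet Y κ := by
      rintro x ⟨W, h1, h2, h3, h4, h5, h6, h7⟩
      by_cases hP : ∃ P : (W.baseChange ℚ).toAffine.Point, addOrderOf P = 2
      · right
        refine ⟨W, h1, h2, h3, h4, hP, h5, ?_⟩
        rw [Nat.cast_natAbs]
        push_cast
        exact h6
      · left
        push Not at hP
        exact ⟨W, h1, h2, h3, h4, h5, h6, h7, hP⟩
    have hfinU : (T ∪ twoSet Y κ).Finite := hfin.union htf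
    refine ⟨hfinU.subset hunion, ?_, ?_, ?_⟩
    · have h1 : ((Curves κ Y (SmallPart X)).ncard : ℝ) ≤ (T.ncard : ℝ) + ((twoSet Y κ).ncard : ℝ) := by
        have h2 := Set.ncard_le_ncard hunion hfinU
        have h3 := Set.ncard_union_le T (twoSet Y κ)
        exact_mod_cast h2.trans h3
      have h4 : Y ^ (3 / 4 + ε) = Y ^ ε * Y ^ (3 / 4 : ℝ) := by
        rw [Real.rpow_add hY0, mul_comm]
      rw [h4] at htc
      have h5 : 0 ≤ C * (Y ^ ε * Y ^ (3 / 4 : ℝ)) := by positivity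
      have h6 : 0 ≤ C2 * (Y ^ ε * B) := by positivity
      have h7 : (C + C2) * Y ^ ε * (Y ^ (3 / 4 : ℝ) + X ^ (1 / 2 : ℝ) * Y ^ (2 / 3 : ℝ) +
          X ^ (3 / 4 : ℝ) * Y ^ (1 / 2 : ℝ)) = C * Y ^ ε * B + C2 * (Y ^ ε * Y ^ (3 / 4 : ℝ)) +
          C * (Y ^ ε * Y ^ (3 / 4 : ℝ)) + C2 * (Y ^ ε * B) := by
        rw [hB]; ring
      rw [h7]
      linarith
    · obtain ⟨S, hS1, hS2⟩ := hlow 2 le_rfl Y hY11
      refine hS1.trans ?_
      have hsub : (S : Set (ℤ × ℤ)) ⊆ T := by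
        intro w hw
        obtain ⟨W, h1, h3, h4, h5, h6, h7, h8, d, t, h9, h10⟩ := hS2 w (by simpa using hw)
        refine ⟨W, by rw [h1], by rw [h1], h3, h4, h6, ?_, ⟨d, t, h9, h10.trans hX⟩,
          (no_two_iff W h3).mpr h5⟩
        exact h7.trans (Real.rpow_le_rpow_of_exponent_le hY1 hκ)
      have := Set.ncard_le_ncard hsub hfin
      rw [Set.ncard_coe_finset] at this
      exact_mod_cast this
    · refine hcard.trans ?_
      have : C * (Y ^ ε * B) ≤ (C + C2) * (Y ^ ε * B) :=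
        mul_le_mul_of_nonneg_right (by linarith) (by positivity)
      linarith
  refine ⟨min c c', C + C2, lt_min hc hc', fun X Y hX hXY => ?_⟩
  have hY11 : 11 ≤ Y := hX.trans hXY
  have hY0 : 0 < Y := by linarith
  obtain ⟨-, m2, m3, m4⟩ := main X Y hX hXY
  obtain ⟨n1, -⟩ := main Y Y hY11 le_rfl
  have hsub : Curves κ Y (fun _ => True) ⊆ Curves κ Y (SmallPart Y) := by
    rintro x ⟨W, h1, h2, h3, h4, h5, h6, -⟩
    exact ⟨W, h1, h2, h3, h4, h5, h6, small_self W h3 Y h5⟩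
  have hfin := n1.subset hsub
  refine ⟨hfin, ?_, m2, ?_, m4⟩
  · obtain ⟨S, hS1, hS2⟩ := hlow' κ hκ Y hY11
    have h1 : (S : Set (ℤ × ℤ)) ⊆ Curves κ Y (fun _ => True) := by
      intro w hw
      obtain ⟨W, h1, h3, h4, h5, h6⟩ := hS2 w (by simpa using hw)
      exact ⟨W, by rw [h1], by rw [h1], h3, h4, h5, h6, trivial⟩
    have h2 := Set.ncard_le_ncard h1 hfin
    rw [Set.ncard_coe_finset] at h2
    have h3 : (S.card : ℝ) ≤ ((Curves κ Y (fun _ => True)).ncard : ℝ) := by exact_mod_cast h2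
    refine le_trans ?_ (hS1.trans h3)
    exact mul_le_mul_of_nonneg_right (min_le_right _ _) (by positivity)
  · refine le_trans ?_ m3
    exact mul_le_mul_of_nonneg_right (min_le_left _ _) (by positivity)

end Pool.Agent.Results.MP_d8bd92_nt.SmallSquarefreePart
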