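import Pool.Agent.Lib.MP_d8bd92_nt.FmZ

set_option autoImplicit false

/-!
The Szpiro ratio in families of semistable elliptic curves over `ℚ` ordered by conductor.

A `WeierstrassCurve ℤ` with nonzero discriminant `Δ` coprime to `c₄` is exactly a (global minimal)
integral model of a semistable elliptic curve over `ℚ`; its conductor `N` is the product of the
primes dividing `Δ`, and the pair `(c₄, c₆)` determines the curve up to isomorphism over `ℚ` (and
is determined by it).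
-/

namespace Pool.Agent.Results.MP_d8bd92_nt.SzpiroRatioFamilies

open Polynomial

/-- The pairs `(c₄, c₆)` of the semistable curves whose `j`-invariant is a value `J₁(t) / J₂(t)` at
a rational number `t` and whose conductor `N` and minimal discriminant `Δ` satisfy `P N |Δ|`. -/
def Curves (J₁ J₂ : ℚ[X]) (P : ℝ → ℝ → Prop) : Set (ℤ × ℤ) :=
  {x | ∃ W : WeierstrassCurve ℤ, W.c₄ = x.1 ∧ W.c₆ = x.2 ∧ W.Δ ≠ 0 ∧ IsCoprime W.c₄ W.Δ ∧
    (∃ t : ℚ, J₂.eval t ≠ 0 ∧ (W.c₄ : ℚ) ^ 3 / (W.Δ : ℚ) = J₁.eval t / J₂.eval t) ∧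
    P ((∏ p ∈ W.Δ.natAbs.primeFactors, p : ℕ) : ℝ) (W.Δ.natAbs : ℝ)}

/-- Let `j = J₁ / J₂` be a rational function over `ℚ` in lowest terms, of degree `6 n > 0`, such
that `J₁` is a constant times a cube, `J₁ - 1728 J₂` is a constant times a square, and the
irreducible factors of `J₂` over `ℚ` have degree at most two. Let `r` be the number of poles of `j`
in the complex projective line, and suppose that at least three of them are rational points and that
some semistable curve has a `j`-invariant `j(t)`. Then `n < r`. Moreover, for every `κ > 6 n / r`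
there is `σ₀ > 6 n / r` such that for every `σ ≤ σ₀` the number of semistable elliptic curves with
`j`-invariant `j(t)`, `t` rational, conductor `N ≤ Y` and `N ^ σ ≤ |Δ| ≤ Y ^ κ` is `Y ^ (E + o(1))`
with `E = min (2 / r) (1 - (r - 2) σ / (6 n))`. So all of them (`σ = 0`) are `Y ^ (2 / r + o(1))`,
one hundred percent of them satisfy `|Δ| < N ^ (6 n / r + ε)`, hence the inequality of Szpiro, and
the exponent of the number of exceptions is known for small `ε`. -/
theorem result (J₁ J₂ A B : ℚ[X]) (a b : ℚ) (n : ℕ) (r : ℝ) (hcop : IsCoprime J₁ J₂) (hn : 0 < n)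
    (hm : max J₁.natDegree J₂.natDegree = 6 * n) (ha : a ≠ 0) (hb : b ≠ 0)
    (hA : J₁ = C a * A ^ 3) (hB : J₁ - C 1728 * J₂ = C b * B ^ 2)
    (hdeg : ∀ p : ℚ[X], Irreducible p → p ∣ J₂ → p.natDegree ≤ 2)
    (h3 : 3 ≤ J₂.roots.toFinset.card + (if J₂.natDegree < J₁.natDegree then 1 else 0))
    (hr : r = ((J₂.aroots ℂ).toFinset.card + (if J₂.natDegree < J₁.natDegree then 1 else 0) : ℕ))
    (hne : (Curves J₁ J₂ (fun _ _ => True)).Nonempty) :
    (n : ℝ) < r ∧ ∀ κ : ℝ, 6 * n / r < κ → ∃ σ₀ : ℝ, 6 * n / r < σ₀ ∧ ∀ σ ε : ℝ, σ ≤ σ₀ → 0 < ε →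
      ∃ c C Y₀ : ℝ, 0 < c ∧ ∀ Y : ℝ, Y₀ ≤ Y →
        (Curves J₁ J₂ (fun N D => N ≤ Y ∧ N ^ σ ≤ D ∧ D ≤ Y ^ κ)).Finite ∧
        c * Y ^ (min (2 / r) (1 - (r - 2) * σ / (6 * n))) ≤
          ((Curves J₁ J₂ (fun N D => N ≤ Y ∧ N ^ σ ≤ D ∧ D ≤ Y ^ κ)).ncard : ℝ) ∧
        ((Curves J₁ J₂ (fun N D => N ≤ Y ∧ N ^ σ ≤ D ∧ D ≤ Y ^ κ)).ncard : ℝ) ≤
          C * Y ^ (min (2 / r) (1 - (r - 2) * σ / (6 * n)) + ε) :=
  Pool.Agent.Lib.MP_d8bd92_nt.Fm.family3 J₁ J₂ A B a b n r hcop hn hm ha hb hA hB hdeg h3 hr hne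

end Pool.Agent.Results.MP_d8bd92_nt.SzpiroRatioFamilies
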